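import Pool.Agent.X305.FM.Dual

/-!
# Semisimplicity of similitudes with few missing operators
-/

set_option autoImplicit false

namespace Pool.Agent.X305.FM

open Module Polynomial

variable {K V : Type*} [Field K] [AddCommGroup V] [Module K V] [FiniteDimensional K V]
  {F : Module.End K V} {B : V →ₗ[K] V →ₗ[K] K} {c : K} {r i : ℕ} {S : Set (Module.End K V)}

/-- an invertible matrix of traces -/
def TraceRank (S : Set (Module.End K V)) (r : ℕ) : Prop :=
  ∃ u v : Fin r → Module.End K V, (∀ i, u i ∈ S ∧ v i ∈ S) ∧
    (Matrix.of fun i j => LinearMap.trace K V (u i * v j)).det ≠ 0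

/-- the condition for an operator on a space -/
def SmallDefect (F : Module.End K V) (c : K) (r i : ℕ) : Prop :=
  ∀ a : K, mult F a ≤ 1 ∨ (Even i ∧ a * a = c ∧ mult F a = 2) ∨ sumSq F + 5 < r + 4 * mult F a ∨
    (a * a ≠ c ∧ sumSq F + 10 < r + 8 * mult F a)

theorem rank_le (h : F.charpoly.Splits) (hS : ∀ t ∈ S, t * F = F * t)
    (hr : TraceRank S r) : r ≤ sumSq F := by
  obtain ⟨u, v, huv, hdet⟩ := hr
  exact rank_le_sumSq F h u v (fun i => hS _ (huv i).1) (fun i => hS _ (huv i).2) hdet

theorem criterion (h2 : (2 : K) ≠ 0) (h : F.charpoly.Splits)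
    (hB : ∀ x y, B (F x) (F y) = c * B x y) (hnd : ∀ x, (∀ y, B x y = 0) → x = 0) (hc : c ≠ 0)
    (hsymm : Even i → ∀ x y, B x y = B y x) (hS : ∀ t ∈ S, t * F = F * t)
    (hr : TraceRank S r) (hsd : SmallDefect F c r i) : F.IsSemisimple := by
  classical
  obtain ⟨u, v, huv, hdet⟩ := hr
  have hu : ∀ i, Commute (u i) F := fun i => hS _ (huv i).1
  have hv : ∀ i, Commute (v i) F := fun i => hS _ (huv i).2
  refine isSemisimple_of_nil F h fun a => ?_
  by_contra hne
  have h1 := rank_bound F h u v hu hv hdet {a} (by
    intro b hb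
    rw [Finset.mem_singleton] at hb
    rw [hb]
    exact hne)
  rw [Finset.sum_singleton, Finset.card_singleton] at h1
  rcases hsd a with h3 | ⟨hi, hac, hm⟩ | h3 | ⟨hac, h3⟩
  · exact hne (nil_of_mult_le_one h3)
  · exact hne (nil_of_symm h2 h hB hnd hc (hsymm hi) hac hm.le)
  · omega
  · -- two eigenvalues
    have ha0 : a ≠ 0 := by
      rintro rfl
      apply hne
      have h4 : mult F 0 = 0 := by
        rw [← finrank_gen, Submodule.finrank_eq_zero, eq_bot_iff]
        intro x hx
        rw [Submodule.mem_bot]
        refine hnd x fun y => ?_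
        -- `B (0 * y)`
        obtain ⟨k, hk⟩ := (Module.End.mem_maxGenEigenspace F 0 x).1 hx
        rw [zero_smul, sub_zero] at hk
        have h5 : ∀ k : ℕ, ∀ x y, B ((F ^ k) x) ((F ^ k) y) = c ^ k * B x y := by
          intro k
          induction k with
          | zero => intro x y; simp
          | succ k ih =>
            intro x y
            rw [pow_succ', Module.End.mul_apply, Module.End.mul_apply, hB, ih, pow_succ']
            ring
        have h6 := h5 k x y
        rw [hk, map_zero, LinearMap.zero_apply] at h6
        exact (mul_eq_zero.1 h6.symm).resolve_left (pow_ne_zero k hc)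
      exact nil_of_mult_le_one (by omega)
    set b := c / a with hb
    have hab : a * b = c := by rw [hb]; field_simp
    have hne' : a ≠ b := by
      rintro h4
      rw [← h4] at hab
      exact hac hab
    have hbne : nil F b ≠ 0 := fun h4 => hne (nil_dual h hB hnd hc hab h4)
    have h4 := rank_bound F h u v hu hv hdet {a, b} (by
      intro x hx
      rw [Finset.mem_insert, Finset.mem_singleton] at hx
      rcases hx with rfl | rfl
      · exact hne
      · exact hbne)
    rw [Finset.sum_pair hne', Finset.card_pair hne'] at h4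
    have h5 := mult_le h hB hnd hc hab
    omega

/-- At most two missing operators. -/
lemma smallDefect_two (hle : sumSq F ≤ r + 2) : SmallDefect F c r i := by
  intro a
  rcases Nat.lt_or_ge 1 (mult F a) with h | h
  · exact Or.inr (Or.inr (Or.inl (by omega)))
  · exact Or.inl h

/-- At most five missing operators in even degree. -/
lemma smallDefect_five (hi : Even i) (hle : sumSq F ≤ r + 5) : SmallDefect F c r i := by
  intro a
  rcases Nat.lt_or_ge 1 (mult F a) with h | h
  · rcases Nat.lt_or_ge 2 (mult F a) with h' | h'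
    · exact Or.inr (Or.inr (Or.inl (by omega)))
    · have h3 : mult F a = 2 := by omega
      by_cases hac : a * a = c
      · exact Or.inr (Or.inl ⟨hi, hac, h3⟩)
      · exact Or.inr (Or.inr (Or.inr ⟨hac, by omega⟩))
  · exact Or.inl h

end Pool.Agent.X305.FM
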