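import Pool.Agent.X305.FM.Lin0
import Pool.Agent.X305.TQ.Defs

/-!
# Semisimplicity of Frobenius and correspondences. Definitions
-/

set_option autoImplicit false

open CategoryTheory AlgebraicGeometry

universe u v

namespace Pool.Agent.X305.FM

open Pool.Agent.H914 VarClass Obj WeilCohomology Pool.Agent.X305.PI Pool.Agent.X305.TQ

variable {k : Type u} [Field k] {𝒱 : VarClass k} {ops : CycleOps 𝒱}
  (W : WeilCohomology.{u, v} ops) (X : 𝒱.Obj) (D : X.Cycles) (f : X ⟶ X) (i q r : ℕ)

/-- The endomorphism `f` acts on the class of `D` and on `tr` like the Frobenius endomorphism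
relative to the field with `q` elements. -/
structure IsFrobeniusFor : Prop where
  map_div : Scales (W.map f) q (W.cl X D)
  tr_map : TraceScales (W.map f) (W.tr X) (q ^ X.dim : ℕ)

/-- The coefficient field contains all eigenvalues of `f^*` on `H^i (X)`. -/
def FrobSplits : Prop := (charpolyOn (pull W X f) (W.gr X i)).Splits

/-- The operator `f^*` on `H^i (X)` is semisimple. -/
def FrobSemisimpleOn : Prop := SemisimpleOn (pull W X f) (W.gr X i)

/-- The sum of the squares of the multiplicities of the eigenvalues of `f^*` on `H^i (X)`. -/
noncomputable def frobSumSq : ℕ := sumSqOn (pull W X f) (W.gr X i)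

/-- The rank of the form `trace (u v | H^i (X))` on the algebraic correspondences of degree `0`
which commute with `f^*` on `H^i (X)` is at least `r`. -/
def CorrRankAtLeast : Prop :=
  TraceRankAtLeast (commutingOn (corrs W X) (pull W X f) (W.gr X i)) (W.gr X i) r

/-- The condition on the multiplicities of the eigenvalues of `f^*` on `H^i (X)` and the number
`frobSumSq W X f i - r` of missing correspondences. -/
def SmallCorrDefect : Prop :=
  SmallDefectOn (pull W X f) (W.gr X i) ((q ^ i : ℕ) : W.K) r i

end Pool.Agent.X305.FM
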