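import Pool.Agent.X305.FM.Glob

/-!
# Similitudes: the nilpotent parts at dual eigenvalues
-/

set_option autoImplicit false

namespace Pool.Agent.X305.FM

open Module Polynomial

variable {K V : Type*} [Field K] [AddCommGroup V] [Module K V]

section orth

variable {F : Module.End K V} {B : V →ₗ[K] V →ₗ[K] K} {c : K}

lemma orth_aux (hB : ∀ x y, B (F x) (F y) = c * B x y) {a b : K} (hab : a * b ≠ c) :
    ∀ N m n : ℕ, m + n = N → ∀ x y : V, ((F - algebraMap K (Module.End K V) a) ^ m) x = 0 →
      ((F - algebraMap K (Module.End K V) b) ^ n) y = 0 → B x y = 0 := by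
  intro N
  induction N using Nat.strong_induction_on with
  | _ N ih =>
    intro m n hmn x y hx hy
    rcases m with _ | m
    · rw [pow_zero, Module.End.one_apply] at hx
      rw [hx, map_zero, LinearMap.zero_apply]
    rcases n with _ | n
    · rw [pow_zero, Module.End.one_apply] at hy
      rw [hy, map_zero]
    set x' := F x - a • x with hx'
    set y' := F y - b • y with hy'
    have ex : (F - algebraMap K (Module.End K V) a) x = x' := rfl
    have ey : (F - algebraMap K (Module.End K V) b) y = y' := rfl
    have hx1 : ((F - algebraMap K (Module.End K V) a) ^ m) x' = 0 := by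
      rw [← ex, ← Module.End.mul_apply, ← pow_succ]
      exact hx
    have hy1 : ((F - algebraMap K (Module.End K V) b) ^ n) y' = 0 := by
      rw [← ey, ← Module.End.mul_apply, ← pow_succ]
      exact hy
    have h1 : B x' y = 0 := ih (m + (n + 1)) (by omega) m (n + 1) rfl x' y hx1 hy
    have h2 : B x y' = 0 := ih (m + 1 + n) (by omega) (m + 1) n rfl x y' hx hy1
    have h3 : B x' y' = 0 := ih (m + n) (by omega) m n rfl x' y' hx1 hy1
    have h4 := hB x y
    have e1 : F x = a • x + x' := by rw [hx']; abel
    have e2 : F y = b • y + y' := by rw [hy']; abel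
    rw [e1, e2] at h4
    simp only [map_add, map_smul, LinearMap.add_apply, LinearMap.smul_apply, smul_eq_mul, h1, h2,
      h3, mul_zero, add_zero] at h4
    have h5 : (a * b - c) * B x y = 0 := by linear_combination h4
    rcases mul_eq_zero.1 h5 with h | h
    · exact absurd (sub_eq_zero.1 h) hab
    · exact h

lemma orth (hB : ∀ x y, B (F x) (F y) = c * B x y) {a b : K} (hab : a * b ≠ c) {x y : V}
    (hx : x ∈ gen F a) (hy : y ∈ gen F b) : B x y = 0 := by
  obtain ⟨m, hm⟩ := (Module.End.mem_maxGenEigenspace F a x).1 hx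
  obtain ⟨n, hn⟩ := (Module.End.mem_maxGenEigenspace F b y).1 hy
  exact orth_aux hB hab _ m n rfl x y hm hn

end orth

variable [FiniteDimensional K V] {F : Module.End K V} {B : V →ₗ[K] V →ₗ[K] K} {c : K}

/-- a vector in a generalised eigenspace orthogonal to the dual generalised eigenspace -/
lemma eq_zero_of_orth (h : F.charpoly.Splits) (hB : ∀ x y, B (F x) (F y) = c * B x y)
    (hnd : ∀ x, (∀ y, B x y = 0) → x = 0) {a b : K} (ha : a ≠ 0) (hab : a * b = c) {x : V}
    (hx : x ∈ gen F a) (hxy : ∀ y ∈ gen F b, B x y = 0) : x = 0 := by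
  classical
  apply hnd
  have htop := (isInternal F h).submodule_iSup_eq_top
  intro y
  have hy : y ∈ (⊤ : Submodule K V) := Submodule.mem_top
  rw [← htop] at hy
  have hle : (⨆ a : {a : K // a ∈ F.charpoly.roots.toFinset}, gen F a) ≤
      LinearMap.ker (B x) := by
    rw [iSup_le_iff]
    rintro ⟨b', _⟩ z hz
    rw [LinearMap.mem_ker]
    rcases eq_or_ne b' b with rfl | hne
    · exact hxy z hz
    · refine orth hB ?_ hx hz
      rw [← hab]
      intro hcon
      exact hne (mul_left_cancel₀ ha hcon)
  exact LinearMap.mem_ker.1 (hle hy)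

/-- **Duality of the nilpotent parts.** -/
theorem nil_dual (h : F.charpoly.Splits) (hB : ∀ x y, B (F x) (F y) = c * B x y)
    (hnd : ∀ x, (∀ y, B x y = 0) → x = 0) (hc : c ≠ 0) {a b : K} (hab : a * b = c)
    (hb : nil F b = 0) : nil F a = 0 := by
  have ha0 : a ≠ 0 := fun h => hc (by rw [← hab, h, zero_mul])
  have hb0 : b ≠ 0 := fun h => hc (by rw [← hab, h, mul_zero])
  ext x
  rw [LinearMap.zero_apply, ZeroMemClass.coe_zero]
  refine eq_zero_of_orth h hB hnd ha0 hab (nil F a x).2 fun y hy => ?_
  rw [nil_apply]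
  have h1 : F y = b • y := by
    have := congrArg Subtype.val (LinearMap.congr_fun hb ⟨y, hy⟩)
    rw [nil_apply, LinearMap.zero_apply, ZeroMemClass.coe_zero] at this
    exact sub_eq_zero.1 this
  have h2 := hB x y
  rw [h1, map_smul, smul_eq_mul, ← hab] at h2
  rw [map_sub, map_smul, LinearMap.sub_apply, LinearMap.smul_apply, smul_eq_mul]
  apply mul_left_cancel₀ hb0
  rw [mul_zero]
  linear_combination h2

/-- **Duality of the multiplicities.** -/
theorem mult_le (h : F.charpoly.Splits) (hB : ∀ x y, B (F x) (F y) = c * B x y)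
    (hnd : ∀ x, (∀ y, B x y = 0) → x = 0) (hc : c ≠ 0) {a b : K} (hab : a * b = c) :
    mult F a ≤ mult F b := by
  have ha0 : a ≠ 0 := fun h => hc (by rw [← hab, h, zero_mul])
  rw [← finrank_gen, ← finrank_gen]
  let φ : gen F a →ₗ[K] Module.Dual K (gen F b) :=
    (LinearMap.lcomp K K (gen F b).subtype).comp (B.comp (gen F a).subtype)
  have hφ : Function.Injective φ := by
    rw [← LinearMap.ker_eq_bot, LinearMap.ker_eq_bot']
    intro x hx
    apply Subtype.ext
    refine eq_zero_of_orth h hB hnd ha0 hab x.2 fun y hy => ?_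
    exact LinearMap.congr_fun hx ⟨y, hy⟩
  have := LinearMap.finrank_le_finrank_of_injective hφ
  rwa [Subspace.dual_finrank_eq] at this

lemma nil_pow (F : Module.End K V) (a : K) : nil F a ^ mult F a = 0 := by
  have h1 := LinearMap.aeval_self_charpoly (nil F a)
  rw [IsNilpotent.charpoly_eq_X_pow_finrank (nil_isNilpotent F a), finrank_gen, map_pow,
    aeval_X] at h1
  exact h1

lemma nil_of_mult_le_one {a : K} (ha : mult F a ≤ 1) : nil F a = 0 := by
  have h := nil_pow F a
  rcases Nat.le_one_iff_eq_zero_or_eq_one.1 ha with h1 | h1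
  · rw [h1, pow_zero] at h
    rw [← mul_one (nil F a), h, mul_zero]
  · rwa [h1, pow_one] at h

/-- **A double real eigenvalue of a similitude of a symmetric form.** -/
theorem nil_of_symm (h2 : (2 : K) ≠ 0) (h : F.charpoly.Splits)
    (hB : ∀ x y, B (F x) (F y) = c * B x y) (hnd : ∀ x, (∀ y, B x y = 0) → x = 0) (hc : c ≠ 0)
    (hsymm : ∀ x y, B x y = B y x) {a : K} (ha : a * a = c) (hm : mult F a ≤ 2) :
    nil F a = 0 := by
  have ha0 : a ≠ 0 := fun h => hc (by rw [← ha, h, zero_mul])
  have hNN : nil F a * nil F a = 0 := by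
    have h1 := nil_pow F a
    obtain ⟨k, hk⟩ := Nat.exists_eq_add_of_le hm
    rw [← pow_two, hk, pow_add, h1, zero_mul]
  by_contra hne
  obtain ⟨e, he⟩ : ∃ e, nil F a e ≠ 0 := by
    by_contra hcon
    push Not at hcon
    exact hne (LinearMap.ext hcon)
  set n := nil F a e with hn
  have hNn : nil F a n = 0 := LinearMap.congr_fun hNN e
  have eF : F (e : V) = a • (e : V) + (n : V) := by
    have := nil_apply F a e
    rw [← hn] at this
    rw [this]
    abel
  have nF : F (n : V) = a • (n : V) := by
    have := nil_apply F a n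
    rw [hNn, ZeroMemClass.coe_zero] at this
    exact (sub_eq_zero.1 this.symm)
  -- `n` is isotropic and orthogonal to `e`
  have h3 : B (n : V) n = 0 := by
    have h4 := hB (e : V) n
    rw [eF, nF, map_add, LinearMap.add_apply, map_smul, map_smul, LinearMap.smul_apply, map_smul,
      smul_eq_mul, smul_eq_mul, smul_eq_mul, ← ha] at h4
    apply mul_left_cancel₀ ha0
    rw [mul_zero]
    linear_combination h4
  have h5 : B (n : V) e = 0 := by
    have h4 := hB (e : V) e
    rw [eF] at h4
    simp only [map_add, map_smul, LinearMap.add_apply, LinearMap.smul_apply, smul_eq_mul, h3,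
      ← ha, hsymm (e : V) (n : V)] at h4
    apply mul_left_cancel₀ (mul_ne_zero h2 ha0)
    rw [mul_zero]
    linear_combination h4
  -- `e` and `n` span
  have hli : LinearIndependent K ![e, n] := by
    rw [LinearIndependent.pair_iff]
    intro s t hst
    have h6 := congrArg (nil F a) hst
    rw [map_add, map_smul, map_smul, hNn, smul_zero, add_zero, map_zero, ← hn] at h6
    have hs : s = 0 := (smul_eq_zero.1 h6).resolve_right he
    rw [hs, zero_smul, zero_add] at hst
    exact ⟨hs, (smul_eq_zero.1 hst).resolve_right he⟩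
  have hcard : Fintype.card (Fin 2) = finrank K (gen F a) := by
    apply le_antisymm
    · exact hli.fintype_card_le_finrank
    · rw [finrank_gen, Fintype.card_fin]
      exact hm
  have hspan := hli.span_eq_top_of_card_eq_finrank hcard
  have hn0 : (n : V) = 0 := by
    refine eq_zero_of_orth h hB hnd ha0 ha n.2 fun y hy => ?_
    have hy' : (⟨y, hy⟩ : gen F a) ∈ Submodule.span K (Set.range ![e, n]) := by
      rw [hspan]
      exact Submodule.mem_top
    rw [Matrix.range_cons, Matrix.range_cons, Matrix.range_empty, Set.union_empty,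
      Set.singleton_union, Submodule.mem_span_pair] at hy'
    obtain ⟨s, t, hst⟩ := hy'
    have h7 : y = s • (e : V) + t • (n : V) := by
      have := congrArg Subtype.val hst
      exact this.symm
    rw [h7, map_add, map_smul, map_smul, h3, h5, smul_zero, smul_zero, add_zero]
  exact he (Subtype.ext hn0)

end Pool.Agent.X305.FM
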