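import Pool.Agent.X305.FM.Crit
import Pool.Agent.X305.FM.Defs
import Pool.Agent.X305.TQ.Fin

/-!
# Semisimplicity of Frobenius when few correspondences are missing
-/

set_option autoImplicit false

open CategoryTheory AlgebraicGeometry

universe u v

namespace Pool.Agent.X305.FM

open Pool.Agent.H914 VarClass Obj WeilCohomology Pool.Agent.X305.HA Pool.Agent.X305.PI
  Pool.Agent.TH720.LB Pool.Agent.X305.TP Pool.Agent.X305.PE Pool.Agent.X305.TQ

section lin

variable {K V : Type*} [Field K] [AddCommGroup V] [Module K V]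

lemma opOn_apply {F : V →ₗ[K] V} {U : Submodule K V} (h : ∀ x ∈ U, F x ∈ U) (x : U) :
    (opOn F U x : V) = F x := by
  rw [opOn, dif_pos h]
  rfl

end lin

variable {k : Type u} [Field k] {𝒱 : VarClass k} {ops : CycleOps 𝒱}
  {W : WeilCohomology.{u, v} ops} {X : 𝒱.Obj} {D : X.Cycles} {g i : ℕ} {f : X ⟶ X} {q : ℕ}

/-- the form on a graded piece -/
noncomputable def piece (W : WeilCohomology.{u, v} ops) (X : 𝒱.Obj) (D : X.Cycles) (g i : ℕ) :
    W.gr X i →ₗ[W.K] W.gr X i →ₗ[W.K] W.K :=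
  LinearMap.domRestrict₁₂ (bform W X D g : W.H X →ₗ[W.K] W.H X →ₗ[W.K] W.K) (W.gr X i) (W.gr X i)

lemma piece_apply (x y : W.gr X i) : piece W X D g i x y =
    W.tr X ((x : W.H X) * (W.cl X D ^ g * y)) := by
  change bform W X D g x y = _
  rw [bform_apply]
  rfl

lemma piece_nondeg (hd : i + g = X.dim) (hHL : HardLefschetz W X D) (x : W.gr X i)
    (h : ∀ y, piece W X D g i x y = 0) : x = 0 := by
  apply Subtype.ext
  apply W.nondeg
  intro b
  refine gr_induction (W.isInternal X) (p := fun b => W.tr X ((x : W.H X) * b) = 0) ?_ ?_ b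
  · intro j a ha
    by_cases hi : i + j = 2 * X.dim
    · obtain ⟨y, hy, hyb⟩ := (hHL i (by omega)).2 a (by
        rw [show 2 * X.dim - i = j by omega]; exact ha)
      have h1 := h ⟨y, hy⟩
      rw [piece_apply] at h1
      rw [LinearMap.pow_mulLeft, LinearMap.mulLeft_apply, show X.dim - i = g by omega] at hyb
      rw [← hyb]
      exact h1
    · exact W.tr_eq_zero (W.mul_mem x.2 ha) hi
  · intro a b ha hb
    rw [mul_add, map_add, ha, hb, add_zero]

lemma pull_mem : ∀ x ∈ W.gr X i, pull W X f x ∈ W.gr X i := fun _ hx => W.map_mem f hx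

lemma piece_scale (hd : i + g = X.dim) (hq : 0 < q) (hf : IsFrobeniusFor W X D f q)
    (x y : W.gr X i) :
    piece W X D g i (opOn (pull W X f) (W.gr X i) x) (opOn (pull W X f) (W.gr X i) y) =
      ((q ^ i : ℕ) : W.K) * piece W X D g i x y := by
  have hq0 : (q : W.K) ≠ 0 := by exact_mod_cast hq.ne'
  have h1 := hf.tr_map ((x : W.H X) * (W.cl X D ^ g * y))
  have h0 : W.map f (W.cl X D) = (q : W.K) • W.cl X D := hf.map_div
  rw [map_mul (W.map f), map_mul (W.map f), map_pow (W.map f), h0, _root_.smul_pow,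
    smul_mul_assoc, mul_smul_comm, map_smul, smul_eq_mul, ← hd, Nat.cast_pow] at h1
  have h2 : (q : W.K) ^ g ≠ 0 := pow_ne_zero _ hq0
  rw [piece_apply, piece_apply, opOn_apply pull_mem, opOn_apply pull_mem]
  apply mul_left_cancel₀ h2
  show (q : W.K) ^ g * W.tr X (W.map f (x : W.H X) * (W.cl X D ^ g * W.map f (y : W.H X))) = _
  rw [h1]
  push_cast
  ring

lemma piece_symm (hi : Even i) (x y : W.gr X i) : piece W X D g i x y = piece W X D g i y x := by
  obtain ⟨m, hm⟩ := hi
  have hm' : i = 2 * m := by omega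
  subst hm'
  change bform W X D g x y = bform W X D g y x
  exact bform_symm x.2 y.2

lemma corrs_mem {c : W.H X →ₗ[W.K] W.H X} (hc : c ∈ corrs W X) : ∀ x ∈ W.gr X i, c x ∈ W.gr X i := by
  obtain ⟨A, hA, rfl⟩ := hc
  intro x hx
  have h1 := corr_isHom W (W.cl_mem hA) (i : ℕ) x (by rw [grZ_natCast]; exact hx)
  rw [sub_self, mul_zero, add_zero, grZ_natCast] at h1
  exact h1

/-- the set of the operators on the piece -/
def opSet (W : WeilCohomology.{u, v} ops) (X : 𝒱.Obj) (f : X ⟶ X) (i : ℕ) :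
    Set (Module.End W.K (W.gr X i)) :=
  (fun c => opOn c (W.gr X i)) '' commutingOn (corrs W X) (pull W X f) (W.gr X i)

lemma opSet_comm : ∀ t ∈ opSet W X f i,
    t * opOn (pull W X f) (W.gr X i) = opOn (pull W X f) (W.gr X i) * t := by
  rintro _ ⟨c, ⟨hc, hcf⟩, rfl⟩
  ext x
  change (opOn c (W.gr X i) (opOn (pull W X f) (W.gr X i) x) : W.H X) =
    (opOn (pull W X f) (W.gr X i) (opOn c (W.gr X i) x) : W.H X)
  rw [opOn_apply (corrs_mem hc), opOn_apply pull_mem, opOn_apply pull_mem,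
    opOn_apply (corrs_mem hc)]
  exact hcf x x.2

lemma traceRank {r : ℕ} (hr : CorrRankAtLeast W X f i r) : TraceRank (opSet W X f i) r := by
  obtain ⟨u, v, huv, hdet⟩ := hr
  exact ⟨fun j => opOn (u j) (W.gr X i), fun j => opOn (v j) (W.gr X i),
    fun j => ⟨⟨u j, (huv j).1, rfl⟩, ⟨v j, (huv j).2, rfl⟩⟩, hdet⟩

theorem rank_le_frobSumSq (hsplit : FrobSplits W X f i) {r : ℕ}
    (hr : CorrRankAtLeast W X f i r) : r ≤ frobSumSq W X f i :=
  rank_le hsplit opSet_comm (traceRank hr)

/-- **Semisimplicity of Frobenius.** -/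
theorem semisimple_of_smallDefect (hd : i + g = X.dim) (hHL : HardLefschetz W X D) (hq : 0 < q)
    (hf : IsFrobeniusFor W X D f q) (hsplit : FrobSplits W X f i) {r : ℕ}
    (hr : CorrRankAtLeast W X f i r) (hsd : SmallCorrDefect W X f i q r) :
    FrobSemisimpleOn W X f i := by
  have hc : ((q ^ i : ℕ) : W.K) ≠ 0 := by
    rw [Nat.cast_pow]
    exact pow_ne_zero _ (by exact_mod_cast hq.ne')
  exact criterion (B := piece W X D g i) (by norm_num) hsplit (piece_scale hd hq hf)
    (fun x h => piece_nondeg hd hHL x h) hc (fun hi => piece_symm hi) opSet_comm (traceRank hr) hsd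

theorem semisimple_of_two (hd : i + g = X.dim) (hHL : HardLefschetz W X D) (hq : 0 < q)
    (hf : IsFrobeniusFor W X D f q) (hsplit : FrobSplits W X f i) {r : ℕ}
    (hr : CorrRankAtLeast W X f i r) (h : frobSumSq W X f i ≤ r + 2) :
    FrobSemisimpleOn W X f i :=
  semisimple_of_smallDefect hd hHL hq hf hsplit hr (smallDefect_two h)

theorem semisimple_of_five (hd : i + g = X.dim) (hHL : HardLefschetz W X D) (hq : 0 < q)
    (hf : IsFrobeniusFor W X D f q) (hsplit : FrobSplits W X f i) {r : ℕ}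
    (hr : CorrRankAtLeast W X f i r) (hi : Even i) (h : frobSumSq W X f i ≤ r + 5) :
    FrobSemisimpleOn W X f i :=
  semisimple_of_smallDefect hd hHL hq hf hsplit hr (smallDefect_five hi h)

end Pool.Agent.X305.FM
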