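import Mathlib

/-!
# Operators on a graded piece, multiplicities and trace forms: definitions
-/

set_option autoImplicit false

namespace Pool.Agent.X305.FM

open Module

variable {K V : Type*} [Field K] [AddCommGroup V] [Module K V]

open Classical in
/-- The operator on the subspace `U` induced by the operator `F`, if `F` maps `U` to itself
(and `0` otherwise). -/
noncomputable def opOn (F : V →ₗ[K] V) (U : Submodule K V) : Module.End K U :=
  if h : ∀ x ∈ U, F x ∈ U then F.restrict h else 0

/-- The trace of `S T` on the subspace `U`. -/
noncomputable def traceOn (U : Submodule K V) (S T : V →ₗ[K] V) : K :=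
  LinearMap.trace K U (opOn S U * opOn T U)

/-- The operators in the set `S` which commute with `F` on the subspace `U`. -/
def commutingOn (S : Set (V →ₗ[K] V)) (F : V →ₗ[K] V) (U : Submodule K V) : Set (V →ₗ[K] V) :=
  {c | c ∈ S ∧ ∀ x ∈ U, c (F x) = F (c x)}

/-- The rank of the form `trace (u v | U)` on the operators in `S` is at least `r`: there are
`u i`, `v j` in `S`, `i, j < r`, for which the matrix of the numbers `trace (u i v j | U)` is
invertible. -/
def TraceRankAtLeast (S : Set (V →ₗ[K] V)) (U : Submodule K V) (r : ℕ) : Prop :=
  ∃ u v : Fin r → V →ₗ[K] V, (∀ i, u i ∈ S ∧ v i ∈ S) ∧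
    (Matrix.of fun i j => traceOn U (u i) (v j)).det ≠ 0

/-- The operator `F` is semisimple on `U`. -/
def SemisimpleOn (F : V →ₗ[K] V) (U : Submodule K V) : Prop := (opOn F U).IsSemisimple

variable [FiniteDimensional K V]

/-- The characteristic polynomial of `F` on `U`. -/
noncomputable def charpolyOn (F : V →ₗ[K] V) (U : Submodule K V) : Polynomial K :=
  (opOn F U).charpoly

/-- The multiplicity of the eigenvalue `a` of `F` on `U`, as a root of the characteristic
polynomial. -/
noncomputable def multOn (F : V →ₗ[K] V) (U : Submodule K V) (a : K) : ℕ :=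
  (charpolyOn F U).rootMultiplicity a

/-- The sum of the squares of the multiplicities of the eigenvalues of `F` on `U`. -/
noncomputable def sumSqOn (F : V →ₗ[K] V) (U : Submodule K V) : ℕ := ∑ᶠ a : K, multOn F U a ^ 2

/-- The condition on the number `d = sumSqOn F U - r` of missing operators, for a similitude `F`
with multiplier `c` of a form on `U`, which is symmetric if `i` is even: each eigenvalue `a` of `F`
on `U` is simple, or double with `a ^ 2 = c` and `i` even, or of multiplicity `m` with `d < 4 m - 5`,
or of multiplicity `m` with `a ^ 2 ≠ c` and `d < 8 m - 10`. -/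
def SmallDefectOn (F : V →ₗ[K] V) (U : Submodule K V) (c : K) (r i : ℕ) : Prop :=
  ∀ a : K, multOn F U a ≤ 1 ∨ (Even i ∧ a * a = c ∧ multOn F U a = 2) ∨
    sumSqOn F U + 5 < r + 4 * multOn F U a ∨
      (a * a ≠ c ∧ sumSqOn F U + 10 < r + 8 * multOn F U a)

end Pool.Agent.X305.FM
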