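import Pool.Agent.X305.FM.Lin
import Pool.Agent.X305.FM.Lin0

/-!
# Ranks of trace forms on the commutant of a linear map. All eigenvalues
-/

set_option autoImplicit false

namespace Pool.Agent.X305.FM

open Module Polynomial

variable {K V : Type*} [Field K] [AddCommGroup V] [Module K V] [FiniteDimensional K V]

/-- The multiplicity of the eigenvalue `a` of `F` as a root of the characteristic polynomial. -/
noncomputable def mult (F : Module.End K V) (a : K) : ℕ := F.charpoly.rootMultiplicity a

/-- The sum of the squares of the multiplicities of the eigenvalues of `F`. -/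
noncomputable def sumSq (F : Module.End K V) : ℕ :=
  ∑ᶠ a : K, mult F a ^ 2

lemma sumSq_eq (F : Module.End K V) [DecidableEq K] :
    sumSq F = ∑ a ∈ F.charpoly.roots.toFinset, mult F a ^ 2 := by
  unfold sumSq
  rw [finsum_eq_sum_of_support_subset]
  intro a ha
  rw [Function.mem_support] at ha
  have h : F.charpoly.rootMultiplicity a ≠ 0 := fun h => ha (by unfold mult; rw [h]; norm_num)
  rw [Finset.mem_coe, Multiset.mem_toFinset, mem_roots (LinearMap.charpoly_monic F).ne_zero]
  exact (rootMultiplicity_pos (LinearMap.charpoly_monic F).ne_zero).1 (Nat.pos_of_ne_zero h)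

/-- the generalised eigenspaces -/
abbrev gen (F : Module.End K V) (a : K) : Submodule K V := F.maxGenEigenspace a

lemma isInternal (F : Module.End K V) (h : F.charpoly.Splits) [DecidableEq K] :
    DirectSum.IsInternal (fun a : {a : K // a ∈ F.charpoly.roots.toFinset} => gen F a) := by
  have hind : iSupIndep (fun a : {a : K // a ∈ F.charpoly.roots.toFinset} => gen F a) :=
    F.independent_maxGenEigenspace.comp Subtype.val_injective
  have hinj := iSupIndep.dfinsupp_lsum_injective hind
  have hfin : finrank K (DirectSum {a : K // a ∈ F.charpoly.roots.toFinset}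
      fun a => gen F a) = finrank K V := by
    rw [Module.finrank_directSum]
    have h1 : ∀ a : {a : K // a ∈ F.charpoly.roots.toFinset},
        finrank K (gen F a) = F.charpoly.roots.count (a : K) := by
      intro a
      rw [LinearMap.finrank_maxGenEigenspace_eq, count_roots]
    rw [Finset.sum_congr rfl fun a _ => h1 a,
      Finset.sum_coe_sort F.charpoly.roots.toFinset fun a => F.charpoly.roots.count a,
      Multiset.toFinset_sum_count_eq, ← h.natDegree_eq_card_roots, LinearMap.charpoly_natDegree]
  exact ⟨hinj, (LinearMap.injective_iff_surjective_of_finrank_eq_finrank hfin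
    (f := DirectSum.coeLinearMap
      fun a : {a : K // a ∈ F.charpoly.roots.toFinset} => gen F a)).1 hinj⟩

lemma mapsTo {F u : Module.End K V} (hu : Commute u F) (a : K) :
    ∀ x ∈ gen F a, u x ∈ gen F a :=
  fun _ hx => Module.End.mapsTo_maxGenEigenspace_of_comm hu.symm a hx

/-- the restriction to a generalised eigenspace -/
noncomputable def res {F u : Module.End K V} (hu : Commute u F) (a : K) : Module.End K (gen F a) :=
  u.restrict (mapsTo hu a)

/-- the nilpotent part -/
noncomputable def nil (F : Module.End K V) (a : K) : Module.End K (gen F a) :=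
  res (F := F) (u := F - algebraMap K (Module.End K V) a)
    ((Commute.refl F).sub_left (Algebra.commutes a F)) a

lemma nil_apply (F : Module.End K V) (a : K) (x : gen F a) : (nil F a x : V) = F x - a • (x : V) :=
  rfl

lemma nil_isNilpotent (F : Module.End K V) (a : K) : IsNilpotent (nil F a) :=
  Module.End.isNilpotent_restrict_maxGenEigenspace_sub_algebraMap F a
    (mapsTo (F := F) (u := F - algebraMap K (Module.End K V) a)
      ((Commute.refl F).sub_left (Algebra.commutes a F)) a)

lemma res_commute {F u : Module.End K V} (hu : Commute u F) (a : K) :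
    Commute (res hu a) (nil F a) := by
  ext x
  change u (F x - a • (x : V)) = F (u x) - a • u x
  rw [map_sub, map_smul]
  congr 1
  exact LinearMap.congr_fun hu.eq x

lemma trace_mul (F : Module.End K V) (h : F.charpoly.Splits) [DecidableEq K]
    {u v : Module.End K V} (hu : Commute u F) (hv : Commute v F) :
    LinearMap.trace K V (u * v) = ∑ a : {a : K // a ∈ F.charpoly.roots.toFinset},
      LinearMap.trace K (gen F a) (res hu a * res hv a) := by
  rw [LinearMap.trace_eq_sum_trace_restrict (isInternal F h)
    (f := u * v) (fun a => fun x hx => mapsTo hu a _ (mapsTo hv a x hx))]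
  rfl

lemma finrank_gen (F : Module.End K V) (a : K) : finrank K (gen F a) = mult F a :=
  LinearMap.finrank_maxGenEigenspace_eq F a

/-- **Two eigenvalues at which `F` is not semisimple.** -/
theorem rank_bound (F : Module.End K V) (h : F.charpoly.Splits) {r : ℕ}
    (u v : Fin r → Module.End K V) (hu : ∀ i, Commute (u i) F) (hv : ∀ i, Commute (v i) F)
    (hdet : (trMat u v).det ≠ 0) (T : Finset K) (hT : ∀ a ∈ T, nil F a ≠ 0) :
    r + ∑ a ∈ T, 4 * mult F a ≤ sumSq F + 5 * T.card := by
  classical
  have hTr : T ⊆ F.charpoly.roots.toFinset := by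
    intro a ha
    rw [Multiset.mem_toFinset, mem_roots (LinearMap.charpoly_monic F).ne_zero]
    by_contra hcon
    apply hT a ha
    have h0 : finrank K (gen F a) = 0 := by
      rw [finrank_gen]
      exact rootMultiplicity_eq_zero hcon
    have h1 : gen F a = ⊥ := Submodule.finrank_eq_zero.1 h0
    ext x
    have h2 : (x : V) ∈ (⊥ : Submodule K V) := h1 ▸ x.2
    rw [Submodule.mem_bot] at h2
    have h3 : x = 0 := Subtype.ext h2
    rw [h3, map_zero, map_zero]
  have hmat : trMat u v = ∑ a : {a : K // a ∈ F.charpoly.roots.toFinset},
      trMat (fun i => res (hu i) (a : K)) (fun i => res (hv i) (a : K)) := by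
    ext i j
    rw [Matrix.sum_apply]
    exact trace_mul F h (hu i) (hv j)
  have hr : r = (trMat u v).rank := by
    rw [Matrix.rank_of_isUnit _ ((Matrix.isUnit_iff_isUnit_det _).2 (isUnit_iff_ne_zero.2 hdet)),
      Fintype.card_fin]
  have hsum := rank_sum_le Finset.univ fun a : {a : K // a ∈ F.charpoly.roots.toFinset} =>
      trMat (fun i => res (hu i) (a : K)) (fun i => res (hv i) (a : K))
  rw [← hmat, ← hr] at hsum
  -- the bound for each eigenvalue
  have hloc : ∀ a : {a : K // a ∈ F.charpoly.roots.toFinset},
      (trMat (fun i => res (hu i) (a : K)) (fun i => res (hv i) (a : K))).rank +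
        (if (a : K) ∈ T then 4 * mult F a else 0) ≤
        mult F a ^ 2 + (if (a : K) ∈ T then 5 else 0) := by
    intro a
    by_cases haT : (a : K) ∈ T
    · rw [if_pos haT, if_pos haT, ← finrank_gen]
      exact rank_trMat_nilpotent (nil_isNilpotent F a) (hT a haT) _ _
        (fun i => res_commute (hu i) a) (fun i => res_commute (hv i) a)
    · rw [if_neg haT, if_neg haT, ← finrank_gen, add_zero, add_zero]
      exact rank_trMat_le_sq _ _
  have hall := Finset.sum_le_sum fun a (_ : a ∈ (Finset.univ :
    Finset {a : K // a ∈ F.charpoly.roots.toFinset})) => hloc a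
  rw [Finset.sum_add_distrib, Finset.sum_add_distrib,
    Finset.sum_coe_sort F.charpoly.roots.toFinset fun a => if a ∈ T then 4 * mult F a else 0,
    Finset.sum_coe_sort F.charpoly.roots.toFinset fun a => if a ∈ T then 5 else 0,
    Finset.sum_coe_sort F.charpoly.roots.toFinset fun a => mult F a ^ 2, ← sumSq_eq,
    ← Finset.sum_filter, ← Finset.sum_filter,
    Finset.filter_mem_eq_inter, Finset.inter_eq_right.2 hTr, Finset.sum_const, smul_eq_mul,
    mul_comm T.card 5] at hall
  omega

/-- the trace form on the commutant has rank at most the sum of the squares -/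
theorem rank_le_sumSq (F : Module.End K V) (h : F.charpoly.Splits) {r : ℕ}
    (u v : Fin r → Module.End K V) (hu : ∀ i, Commute (u i) F) (hv : ∀ i, Commute (v i) F)
    (hdet : (trMat u v).det ≠ 0) : r ≤ sumSq F := by
  have := rank_bound F h u v hu hv hdet ∅ (by simp)
  simpa using this

/-- semisimplicity from the vanishing of the nilpotent parts -/
theorem isSemisimple_of_nil (F : Module.End K V) (h : F.charpoly.Splits)
    (hnil : ∀ a, nil F a = 0) : F.IsSemisimple := by
  classical
  refine Module.End.isSemisimple_of_squarefree_aeval_eq_zero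
    (p := ∏ a ∈ F.charpoly.roots.toFinset, (X - C a)) ?_ ?_
  · exact (separable_prod_X_sub_C_iff'.2 fun x _ y _ h => h).squarefree
  · have hint := isInternal F h
    have htop := hint.submodule_iSup_eq_top
    rw [← LinearMap.ker_eq_top, eq_top_iff, ← htop, iSup_le_iff]
    rintro ⟨a, ha⟩ x hx
    rw [LinearMap.mem_ker, ← Finset.prod_erase_mul _ _ ha, map_mul, Module.End.mul_apply]
    have h1 : (aeval F (X - C a)) x = 0 := by
      rw [map_sub, aeval_X, aeval_C, LinearMap.sub_apply, Module.algebraMap_end_apply]
      exact congrArg Subtype.val (LinearMap.congr_fun (hnil a) ⟨x, hx⟩)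
    rw [h1, map_zero]

end Pool.Agent.X305.FM
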