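import Mathlib

/-!
# Ranks of trace forms on the commutant of a linear map. Linear algebra
-/

set_option autoImplicit false

namespace Pool.Agent.X305.FM

open Module

section rank

variable {K : Type*} [Field K] {m n : Type*} [Fintype m] [Fintype n]

lemma rank_add_le (A B : Matrix m n K) : (A + B).rank ≤ A.rank + B.rank := by
  unfold Matrix.rank
  have h : LinearMap.range (A + B).mulVecLin ≤
      LinearMap.range A.mulVecLin ⊔ LinearMap.range B.mulVecLin := by
    rintro _ ⟨x, rfl⟩
    rw [Matrix.mulVecLin_add, LinearMap.add_apply]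
    exact Submodule.add_mem_sup ⟨x, rfl⟩ ⟨x, rfl⟩
  exact (Submodule.finrank_mono h).trans (Submodule.finrank_add_le_finrank_add_finrank _ _)

lemma rank_sum_le {ι : Type*} (s : Finset ι) (A : ι → Matrix m n K) :
    (∑ i ∈ s, A i).rank ≤ ∑ i ∈ s, (A i).rank := by
  classical
  induction s using Finset.induction_on with
  | empty => simp
  | insert a s ha ih =>
    rw [Finset.sum_insert ha, Finset.sum_insert ha]
    exact (rank_add_le _ _).trans (by omega)

end rank

section factor

variable {K E Z Y : Type*} [Field K] [AddCommGroup E] [Module K E] [AddCommGroup Z] [Module K Z]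
  [AddCommGroup Y] [Module K Y] [FiniteDimensional K E] [FiniteDimensional K Z]
  [FiniteDimensional K Y]

lemma finrank_map_le (C : Submodule K E) (φ : E →ₗ[K] Z) (ρ : E →ₗ[K] Y)
    (h : ∀ b ∈ C, φ b = 0 → ρ b = 0) : finrank K (C.map ρ) ≤ finrank K Z := by
  have h1 := LinearMap.finrank_range_add_finrank_ker (φ.domRestrict C)
  have h2 := LinearMap.finrank_range_add_finrank_ker (ρ.domRestrict C)
  have h3 : LinearMap.ker (φ.domRestrict C) ≤ LinearMap.ker (ρ.domRestrict C) := by
    rintro ⟨b, hb⟩ hb'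
    rw [LinearMap.mem_ker] at hb' ⊢
    exact h b hb hb'
  have h4 := Submodule.finrank_mono h3
  have h5 : finrank K (LinearMap.range (φ.domRestrict C)) ≤ finrank K Z :=
    Submodule.finrank_le _
  have h6 : LinearMap.range (ρ.domRestrict C) = C.map ρ := by
    ext y
    constructor
    · rintro ⟨⟨b, hb⟩, rfl⟩
      exact ⟨b, hb, rfl⟩
    · rintro ⟨b, hb, rfl⟩
      exact ⟨⟨b, hb⟩, rfl⟩
  rw [← h6]
  omega

end factor

variable {K V : Type*} [Field K] [AddCommGroup V] [Module K V] [FiniteDimensional K V]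

/-- the traces of the products -/
noncomputable def trMat {r : ℕ} (u v : Fin r → Module.End K V) : Matrix (Fin r) (Fin r) K :=
  Matrix.of fun i j => LinearMap.trace K V (u i * v j)

lemma rank_trMat_le {Z : Type*} [AddCommGroup Z] [Module K Z] [FiniteDimensional K Z] {r : ℕ}
    (u v : Fin r → Module.End K V) (φ : Module.End K V →ₗ[K] Z)
    (h : ∀ b ∈ Submodule.span K (Set.range u), φ b = 0 →
      ∀ j, LinearMap.trace K V (b * v j) = 0) : (trMat u v).rank ≤ finrank K Z := by
  classical
  rw [Matrix.rank_eq_finrank_span_row]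
  let ρ : Module.End K V →ₗ[K] (Fin r → K) :=
    LinearMap.pi fun j => (LinearMap.trace K V).comp (LinearMap.mulRight K (v j))
  have h1 : Submodule.span K (Set.range (trMat u v).row) =
      (Submodule.span K (Set.range u)).map ρ := by
    rw [Submodule.map_span, ← Set.range_comp]
    rfl
  rw [h1]
  refine finrank_map_le _ φ ρ fun b hb hb0 => ?_
  funext j
  exact h b hb hb0 j

lemma rank_trMat_le_sq {r : ℕ} (u v : Fin r → Module.End K V) :
    (trMat u v).rank ≤ finrank K V ^ 2 := by
  have h := rank_trMat_le u v (LinearMap.id : Module.End K V →ₗ[K] Module.End K V)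
    (fun b _ hb j => by
      have hb' : b = 0 := hb
      rw [hb', zero_mul, map_zero])
  rwa [Module.finrank_linearMap, ← pow_two] at h

lemma arith {e m : ℕ} (he : 1 ≤ e) (hm : 2 * e ≤ m) :
    e ^ 2 + (m - 2 * e) ^ 2 + 4 * m ≤ m ^ 2 + 5 := by
  obtain ⟨t, rfl⟩ := Nat.exists_eq_add_of_le hm
  obtain ⟨s, rfl⟩ := Nat.exists_eq_add_of_le he
  have h1 : 2 * (1 + s) + t - 2 * (1 + s) = t := by omega
  rw [h1]
  nlinarith [Nat.zero_le s, Nat.zero_le t, Nat.zero_le (s * t), Nat.zero_le (s * s)]

/-- **The local bound.** If the operators commute with a nilpotent operator different from zero, then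
the rank of the trace form on them is at most `m ^ 2 - 4 m + 5`. -/
theorem rank_trMat_nilpotent {N : Module.End K V} (hN : IsNilpotent N) (hN0 : N ≠ 0) {r : ℕ}
    (u v : Fin r → Module.End K V) (hu : ∀ i, Commute (u i) N) (hv : ∀ i, Commute (v i) N) :
    (trMat u v).rank + 4 * finrank K V ≤ finrank K V ^ 2 + 5 := by
  classical
  -- the last nonzero power
  obtain ⟨P, hP0, hPP, hPc⟩ : ∃ P : Module.End K V, P ≠ 0 ∧ P * P = 0 ∧
      ∀ b, Commute b N → Commute b P := by
    have hex : ∃ k, N ^ k = 0 := hN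
    obtain ⟨k, hk, hmin⟩ : ∃ k, N ^ k = 0 ∧ ∀ j < k, N ^ j ≠ 0 :=
      ⟨Nat.find hex, Nat.find_spec hex, fun j hj => Nat.find_min hex hj⟩
    have hk2 : 2 ≤ k := by
      rcases Nat.lt_or_ge k 2 with h | h
      · exfalso
        interval_cases k
        · rw [pow_zero] at hk
          apply hN0
          rw [← mul_one N, hk, mul_zero]
        · rw [pow_one] at hk
          exact hN0 hk
      · exact h
    refine ⟨N ^ (k - 1), hmin _ (by omega), ?_, fun b hb => hb.pow_right _⟩
    rw [← pow_add, show k - 1 + (k - 1) = k + (k - 2) by omega, pow_add, hk, zero_mul]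
  set I : Submodule K V := LinearMap.range P with hI
  set Q : Submodule K V := LinearMap.ker P with hQ
  have hIQ : I ≤ Q := by
    rintro _ ⟨x, rfl⟩
    rw [hQ, LinearMap.mem_ker]
    exact LinearMap.congr_fun hPP x
  have hdim : finrank K I + finrank K Q = finrank K V := LinearMap.finrank_range_add_finrank_ker P
  have he : 1 ≤ finrank K I := by
    rw [Nat.one_le_iff_ne_zero]
    intro h
    have h1 : I = ⊥ := Submodule.finrank_eq_zero.1 h
    exact hP0 (LinearMap.range_eq_bot.1 h1)
  have hle := Submodule.finrank_mono hIQ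
  -- a complement of `I` in `Q`
  obtain ⟨J, hJQ, hdisj, hsup⟩ : ∃ J : Submodule K V, J ≤ Q ∧ Disjoint I J ∧ I ⊔ J = Q := by
    obtain ⟨J', hJ'⟩ := Submodule.exists_isCompl I
    refine ⟨J' ⊓ Q, inf_le_right, ?_, ?_⟩
    · exact hJ'.disjoint.mono_right inf_le_left
    · rw [← sup_inf_assoc_of_le J' hIQ, hJ'.sup_eq_top, top_inf_eq]
  have hJdim : finrank K I + finrank K J = finrank K Q := by
    have h := Submodule.finrank_sup_add_finrank_inf_eq I J
    rw [hsup, disjoint_iff.1 hdisj, finrank_bot] at h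
    omega
  -- projections
  obtain ⟨pI, hpI⟩ := I.subtype.exists_leftInverse_of_injective
    (LinearMap.ker_eq_bot.2 (Submodule.injective_subtype I))
  have hinj : LinearMap.ker (I.mkQ.comp J.subtype) = ⊥ := by
    rw [LinearMap.ker_eq_bot']
    rintro ⟨x, hx⟩ h
    have h1 : x ∈ I := (Submodule.Quotient.mk_eq_zero I).1 h
    have h2 : x ∈ I ⊓ J := ⟨h1, hx⟩
    rw [disjoint_iff.1 hdisj, Submodule.mem_bot] at h2
    exact Subtype.ext h2
  obtain ⟨g, hg⟩ := (I.mkQ.comp J.subtype).exists_leftInverse_of_injective hinj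
  let pJ : V →ₗ[K] J := g.comp I.mkQ
  have hpJ1 : ∀ x ∈ I, pJ x = 0 := by
    intro x hx
    change g (I.mkQ x) = 0
    rw [show I.mkQ x = 0 from (Submodule.Quotient.mk_eq_zero I).2 hx, map_zero]
  have hpJ2 : ∀ x : J, pJ x = x := fun x => LinearMap.congr_fun hg x
  have hpI2 : ∀ x : I, pI x = x := fun x => LinearMap.congr_fun hpI x
  -- the map to the graded pieces
  let φ : Module.End K V →ₗ[K] ((I →ₗ[K] I) × (J →ₗ[K] J)) :=
    LinearMap.prod
      ((LinearMap.llcomp K I V I pI).comp (LinearMap.lcomp K V I.subtype))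
      ((LinearMap.llcomp K J V J pJ).comp (LinearMap.lcomp K V J.subtype))
  have hφ1 : ∀ (b : Module.End K V) (x : I), (φ b).1 x = pI (b x) := fun b x => rfl
  have hφ2 : ∀ (b : Module.End K V) (x : J), (φ b).2 x = pJ (b x) := fun b x => rfl
  have hspan : ∀ b ∈ Submodule.span K (Set.range u), Commute b N := by
    intro b hb
    induction hb using Submodule.span_induction with
    | mem x hx =>
      obtain ⟨i, rfl⟩ := hx
      exact hu i
    | zero => exact Commute.zero_left _
    | add x y _ _ hx hy => exact hx.add_left hy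
    | smul a x _ hx => exact hx.smul_left a
  have hpres : ∀ b : Module.End K V, Commute b N → (∀ x ∈ I, b x ∈ I) ∧ (∀ x ∈ Q, b x ∈ Q) := by
    intro b hb
    have hbP := hPc b hb
    refine ⟨?_, ?_⟩
    · rintro _ ⟨y, rfl⟩
      refine ⟨b y, ?_⟩
      exact (LinearMap.congr_fun hbP.eq y).symm
    · intro x hx
      rw [hQ, LinearMap.mem_ker] at hx ⊢
      have h := LinearMap.congr_fun hbP.eq x
      rw [Module.End.mul_apply, Module.End.mul_apply, hx, map_zero] at h
      exact h.symm
  have hkey : ∀ b ∈ Submodule.span K (Set.range u), φ b = 0 →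
      ∀ j, LinearMap.trace K V (b * v j) = 0 := by
    intro b hb hb0 j
    have hbc := hspan b hb
    obtain ⟨hbI, hbQ⟩ := hpres b hbc
    obtain ⟨hvI, hvQ⟩ := hpres (v j) (hv j)
    have h1 : ∀ x ∈ I, b x = 0 := by
      intro x hx
      have h2 : pI (b x) = 0 := by
        have := congrArg Prod.fst hb0
        have := LinearMap.congr_fun this ⟨x, hx⟩
        simpa [hφ1] using this
      have h3 := hpI2 ⟨b x, hbI x hx⟩
      have h4 : (pI (b x) : I) = ⟨b x, hbI x hx⟩ := h3
      rw [h2] at h4
      exact (congrArg Subtype.val h4).symm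
    have h2 : ∀ x ∈ Q, b x ∈ I := by
      intro x hx
      rw [← hsup] at hx
      obtain ⟨y, hy, z, hz, rfl⟩ := Submodule.mem_sup.1 hx
      rw [map_add, h1 y hy, zero_add]
      have hbz : b z ∈ Q := hbQ z (hJQ hz)
      rw [← hsup] at hbz
      obtain ⟨s, hs, t, ht, hst⟩ := Submodule.mem_sup.1 hbz
      have h3 : pJ (b z) = 0 := by
        have := congrArg Prod.snd hb0
        have := LinearMap.congr_fun this ⟨z, hz⟩
        simpa [hφ2] using this
      rw [← hst, map_add, hpJ1 s hs, zero_add] at h3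
      have h4 := hpJ2 ⟨t, ht⟩
      have h5 : (pJ t : J) = ⟨t, ht⟩ := h4
      rw [h3] at h5
      have h6 : t = 0 := (congrArg Subtype.val h5).symm
      rw [← hst, h6, add_zero]
      exact hs
    have h3 : ∀ x, b x ∈ Q := by
      intro x
      rw [hQ, LinearMap.mem_ker]
      have h := LinearMap.congr_fun (hPc b hbc).eq x
      rw [Module.End.mul_apply, Module.End.mul_apply, h1 _ ⟨x, rfl⟩] at h
      exact h.symm
    have h4 : (b * v j) ^ 3 = 0 := by
      ext x
      rw [pow_succ, pow_two, Module.End.mul_apply, Module.End.mul_apply, LinearMap.zero_apply]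
      have e1 : (b * v j) x ∈ Q := h3 _
      have e2 : (b * v j) ((b * v j) x) ∈ I := h2 _ (hvQ _ e1)
      exact h1 _ (hvI _ e2)
    exact (LinearMap.isNilpotent_trace_of_isNilpotent ⟨3, h4⟩).eq_zero
  have hrank := rank_trMat_le u v φ hkey
  rw [Module.finrank_prod, Module.finrank_linearMap, Module.finrank_linearMap] at hrank
  have hJ2 : finrank K J = finrank K V - 2 * finrank K I := by omega
  have har := arith he (show 2 * finrank K I ≤ finrank K V by omega)
  rw [hJ2] at hrank
  rw [pow_two, pow_two] at har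
  omega

end Pool.Agent.X305.FM
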